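import Pool.Agent.H910R3.Geo.Main

/-!
# Isomorphism of geodetic graphs is GI-complete

The flag graph of a linear space (any two points are on exactly one line) has as vertices the
points and the flags (incident point-line pairs); a point is adjacent to its flags, and two flags
are adjacent if they have the same line.  The flag graph of every finite linear space is geodetic
of diameter at most 5.  A graph `G` is encoded into the linear space whose points are the pairs
`(i, j)` of vertices, four more points in every row and three points `∞₀, ∞₁, ∞₂`; the lines are
the rows, the triples `{∞₀, (i, j), (j, i)}` for adjacent `i, j`, and the remaining pairs of points.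
The graph can be recovered from the flag graph of this linear space.
-/

set_option autoImplicit false

namespace Pool.Agent.Results.MP_f934c9_lc.GIComplete

open Pool.Agent.H910R3.Geo Pool.Agent.NPC Pool.Agent.NPC.H910R3

/-- Isomorphism of geodetic graphs is equivalent, under polynomial-time many-one reductions, to
isomorphism of arbitrary graphs; the reduction produces 2-connected geodetic graphs of diameter at
most 5.  In particular there is a polynomial-time algorithm for isomorphism of geodetic graphs if
and only if graph isomorphism is in `P`. -/
theorem result :
    (∃ F : Mat → Mat,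
      (∃ A : List Bool → List Bool, PolyTime A ∧ ∀ M, A (bits M) = bits (F M)) ∧
      ∀ M, IsAdjMat (F M) ∧ Geodetic (gr (F M)) ∧ TwoConnected (gr (F M)) ∧
        (∀ u v, (gr (F M)).dist u v ≤ 5) ∧
        ∀ M', Nonempty (gr (F M) ≃g gr (F M')) ↔ Nonempty (gr M ≃g gr M')) ∧
    Reduces (lang GraphIso) (lang GeodeticIso) ∧
    Reduces (lang GeodeticIso) (lang GraphIso) ∧
    (GeodeticAlgorithm ↔ InP (lang GraphIso)) := by
  refine ⟨⟨FM, ?_, fun M => ⟨(FM_props M).1, (FM_props M).2.1, (FM_props M).2.2.1,
    (FM_props M).2.2.2, fun M' => FM_iso_iff M M'⟩⟩, reduces1, reduces2, algorithm_iff⟩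
  have hg : Pool.Agent.NPC.Poly (fun x : List Bool => match unbits Mat x with
      | none => []
      | some M => FM M) :=
    (Pool.Agent.NPC.Poly.optCases (h := fun _ M => FM M) poly_unbits
      (Pool.Agent.NPC.Poly.const []) (poly_FM.comp
        (Pool.Agent.NPC.Poly.snd Pool.Agent.NPC.Poly.id))).congr fun x => by
          cases unbits Mat x <;> rfl
  exact ⟨_, polyTime_bits hg, fun M => by simp only [unbits_bits]⟩

end Pool.Agent.Results.MP_f934c9_lc.GIComplete
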